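import Pool.Agent.Q57.TP.Kod

/-!
Good minimal models, nef and semiample log canonical divisors in terms of sections.
-/

set_option autoImplicit false
set_option linter.overlappingInstances false
set_option linter.unusedSectionVars false

open FF Pool.Agent.W602.GT Pool.Agent.Q57.TP

namespace Pool.Agent.Q57.GM

variable {N : ℕ} {K : Type} [Field K] [Algebra ℂ K]

/-- the asymptotic orders are computed by finitely many sections -/
def BGood (N : ℕ) (δ : Place ℂ K → ℚ) : Prop :=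
  ∃ (T r : ℕ) (ω : Fin r → (Fin N → Derivation ℂ K K) → K), 0 < T ∧
    (∀ i, BSec N δ {1} T 1 (ω i)) ∧ ∀ P : Place ℂ K, Divisorial N P → ∃ i, ∀ S : Finset K,
      ∃ C : ℤ, ∀ (m j : ℕ) (η : (Fin N → Derivation ℂ K K) → K), 1 ≤ m → BSec N δ S m j η →
        ∀ D, η D = 0 ∨ (ω i D ≠ 0 ∧
          (m : ℤ) * P.ord (ω i D) ≤ T * P.ord (η D) + C * (j + 1))

/-- nef: all `M (K + Δ) + A` are semiample -/
def BNef (N : ℕ) (δ : Place ℂ K → ℚ) : Prop :=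
  ∃ S : Finset K, (∃ s ∈ S, s ≠ 0) ∧ ∀ M : ℕ, 1 ≤ M → ∃ j : ℕ, 1 ≤ j ∧
    ∀ P : Place ℂ K, Divisorial N P → ∃ η, BSec N δ S (j * M) j η ∧
      ∃ D, (∀ c, DerReg P (D c)) ∧ η D ≠ 0 ∧
        ∀ s ∈ S, s ≠ 0 → (P.ord (η D) : ℚ) ≤ j * P.ord s - (j * M) * δ P

/-- semiample -/
def BSemi (N : ℕ) (δ : Place ℂ K → ℚ) : Prop :=
  ∃ T : ℕ, 0 < T ∧ ∀ P : Place ℂ K, Divisorial N P → ∃ η, BSec N δ {1} T 1 η ∧
    ∃ D, (∀ c, DerReg P (D c)) ∧ η D ≠ 0 ∧ (P.ord (η D) : ℚ) ≤ - (T * δ P)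

theorem semi_of_good {δ : Place ℂ K → ℚ} (hg : BGood N δ) (hn : BNef N δ) : BSemi N δ := by
  classical
  obtain ⟨T, r, ω, hT, hω, hgood⟩ := hg
  obtain ⟨S, ⟨s0, hs0, hs00⟩, hnef⟩ := hn
  refine ⟨T, hT, fun P hP => ?_⟩
  obtain ⟨i, hi⟩ := hgood P hP
  obtain ⟨C, hC⟩ := hi S
  refine ⟨ω i, hω i, ?_⟩
  obtain ⟨B, hB⟩ : ∃ B : ℚ, B = T * |(P.ord s0 : ℚ)| + 2 * |(C : ℚ)| := ⟨_, rfl⟩
  have hTq : (0 : ℚ) < T := by exact_mod_cast hT
  have hB0 : 0 ≤ B := by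
    rw [hB]
    positivity
  -- vector fields for all `M`
  have hM : ∀ M : ℕ, 1 ≤ M → ∃ D, (∀ c, DerReg P (D c)) ∧ ω i D ≠ 0 ∧
      M * ((P.ord (ω i D) : ℚ) + T * δ P) ≤ B := by
    intro M hM
    obtain ⟨j, hj, hjP⟩ := hnef M hM
    obtain ⟨η, hη, D, hD, hηD, hle⟩ := hjP P hP
    have h1 := (hC (j * M) j η (Nat.mul_pos hj hM) hη D).resolve_left hηD
    refine ⟨D, hD, h1.1, ?_⟩
    have h2 := hle s0 hs0 hs00
    have h3 : (((j * M : ℕ) : ℤ) * P.ord (ω i D) : ℚ) ≤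
        ((T * P.ord (η D) + C * (j + 1) : ℤ) : ℚ) := by
      exact_mod_cast h1.2
    push_cast at h3
    have hjq : (1 : ℚ) ≤ j := by exact_mod_cast hj
    have h4 : (C : ℚ) * (j + 1) ≤ j * (2 * |(C : ℚ)|) := by
      have h5 : (C : ℚ) * (j + 1) ≤ |(C : ℚ)| * (j + 1) :=
        mul_le_mul_of_nonneg_right (le_abs_self _) (by positivity)
      have h6 : |(C : ℚ)| * (j + 1) ≤ |(C : ℚ)| * (2 * j) :=
        mul_le_mul_of_nonneg_left (by linarith) (abs_nonneg _)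
      linarith
    have h5 := mul_le_mul_of_nonneg_left h2 hTq.le
    have h6 : (T : ℚ) * (j * P.ord s0) ≤ j * (T * |(P.ord s0 : ℚ)|) := by
      have h7 : (P.ord s0 : ℚ) ≤ |(P.ord s0 : ℚ)| := le_abs_self _
      have h8 : (0 : ℚ) ≤ T * j := by positivity
      have h9 := mul_le_mul_of_nonneg_left h7 h8
      linarith
    have h7 : (j : ℚ) * (M * ((P.ord (ω i D) : ℚ) + T * δ P)) ≤ j * B := by
      rw [hB]
      linarith
    exact le_of_mul_le_mul_left h7 (by linarith)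
  -- the minimal order
  have hlow : ∀ D, (∀ c, DerReg P (D c)) → ω i D ≠ 0 → - (T * δ P) ≤ (P.ord (ω i D) : ℚ) := by
    intro D hD hne
    obtain ⟨s, hs, -, hle⟩ := ((hω i).2 P hP D hD).resolve_left hne
    rw [Finset.mem_singleton] at hs
    subst hs
    rw [P.ord_one] at hle
    push_cast at hle
    linarith
  obtain ⟨e, ⟨D, hD, hne, he⟩, hmin⟩ : ∃ e : ℤ, (∃ D, (∀ c, DerReg P (D c)) ∧ ω i D ≠ 0 ∧
      P.ord (ω i D) = e) ∧ ∀ e', (∃ D, (∀ c, DerReg P (D c)) ∧ ω i D ≠ 0 ∧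
      P.ord (ω i D) = e') → e ≤ e' := by
    refine Int.exists_least_of_bdd ⟨⌊- (T * δ P)⌋, ?_⟩ ?_
    · rintro z ⟨D, hD, hne, rfl⟩
      have h1 := hlow D hD hne
      have h2 := Int.floor_le (- (T * δ P))
      have h3 : ((⌊- (T * δ P)⌋ : ℤ) : ℚ) ≤ (P.ord (ω i D) : ℚ) := h2.trans h1
      exact_mod_cast h3
    · obtain ⟨D, hD, hne, -⟩ := hM 1 le_rfl
      exact ⟨_, D, hD, hne, rfl⟩
  refine ⟨D, hD, hne, ?_⟩
  rw [he]
  by_contra hcon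
  push Not at hcon
  have h1 : 0 < (e : ℚ) + T * δ P := by linarith
  obtain ⟨M, hM1⟩ := exists_nat_gt (B / ((e : ℚ) + T * δ P))
  rw [div_lt_iff₀ h1] at hM1
  have hM0 : 1 ≤ M := by
    rcases Nat.eq_zero_or_pos M with h | h
    · rw [h, Nat.cast_zero, zero_mul] at hM1
      linarith
    · exact h
  obtain ⟨D', hD', hne', hle⟩ := hM M hM0
  have h2 := hmin _ ⟨D', hD', hne', rfl⟩
  have h3 : (e : ℚ) ≤ P.ord (ω i D') := by exact_mod_cast h2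
  have hMq : (0 : ℚ) < M := by exact_mod_cast hM0
  have h4 : (M : ℚ) * ((e : ℚ) + T * δ P) ≤ M * ((P.ord (ω i D') : ℚ) + T * δ P) :=
    mul_le_mul_of_nonneg_left (by linarith) hMq.le
  linarith

end Pool.Agent.Q57.GM
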