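import Pool.Agent.Q57.GM.Gmm
import Pool.Agent.Q57.GM.Nef

/-!
Good minimal models for pairs on covers branched along normal crossings.
-/

set_option autoImplicit false
set_option linter.overlappingInstances false
set_option linter.unusedSectionVars false
set_option maxHeartbeats 400000

open FF MvPolynomial IntermediateField Pool.Agent.W603.LV Pool.Agent.W619.PQ
open Pool.Agent.W619.TW Pool.Agent.W602.GT Pool.Agent.TH122.AB Pool.Agent.TH756.PN
open Pool.Agent.Y169.CH Pool.Agent.W602.Cov Pool.Agent.W602.Cov.G Pool.Agent.Y169.TH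
open Pool.Agent.Q57.TP Pool.Agent.TH152.AC

namespace Pool.Agent.Q57.GM

theorem exists_divisorial {d : ℕ} {K : Type} [Field K] [Algebra ℂ K] {Z Y : Fin (d + 1) → K}
    (hZ : IsTranscendenceBasis ℂ Z) (hY : IsTranscendenceBasis ℂ Y)
    (hYZ : IntermediateField.adjoin ℂ (Set.range Y) ≤ IntermediateField.adjoin ℂ (Set.range Z))
    (hfd : FiniteDimensional (IntermediateField.adjoin ℂ (Set.range Y)) K) :
    ∃ P : Place ℂ K, Divisorial (d + 1) P := by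
  classical
  obtain ⟨K', iF, iA, iK, hT, G0, G, fG0, fG, hGG, a1, a2, a3, a4, b1, b2, b3, b4, Y', X', hY',
    hX', hYK, hXZ, hbX⟩ := exists_closure2 hZ hY hYZ hfd
  have hp : Irreducible (X 0 : MvPolynomial (Fin (d + 1)) ℂ) := (MvPolynomial.X_prime (i := (0 : Fin (d + 1)))).irreducible
  obtain ⟨v, hv1, hv2⟩ := exists_adic hX' hp
  obtain ⟨w, e, I, hwv, -, -⟩ := exists_inertia G v
  obtain ⟨P, e1, e2, h1, h2, he⟩ := exists_restr (K := K) hwv
  exact ⟨P, div_adic hX' hp hv2 h2⟩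

theorem psef_of_nef {N : ℕ} {K : Type} [Field K] [Algebra ℂ K] {δ : Place ℂ K → ℚ}
    (hP : ∃ P : Place ℂ K, Divisorial N P) (hn : BNef N δ) : BPsef N δ := by
  classical
  obtain ⟨P, hP⟩ := hP
  obtain ⟨S, ⟨s0, hs0, hs00⟩, hnef⟩ := hn
  refine ⟨S, fun M => ?_⟩
  by_cases hM : M = 0
  · refine ⟨1, le_rfl, fun _ => s0, ?_, ?_, fun P _ D _ => Or.inr ⟨s0, hs0, hs00, ?_⟩⟩
    · intro h0
      exact hs00 (congrFun h0 fun _ => 0)
    · intro A D
      rw [hM, mul_zero, pow_zero, one_mul]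
    · rw [hM]
      simp
  · obtain ⟨j, hj, hjP⟩ := hnef M (by omega)
    obtain ⟨η, hη, D, -, hηD, -⟩ := hjP P hP
    exact ⟨j, hj, η, fun h0 => hηD (congrFun h0 D), hη⟩

/-- **The main theorem.** -/
theorem main_gm {d R : ℕ} {K : Type} [Field K] [Algebra ℂ K] {x : Fin (d + 2) → K}
    (hx0 : x 0 ≠ 0)
    (hbas : IsTranscendenceBasis ℂ fun b : Fin (d + 1) => x b.succ / x 0)
    {F : Fin (d + 2) → MvPolynomial (Fin (d + 2)) ℂ} {dF : Fin (d + 2) → ℕ} (hd : ∀ k, 0 < dF k)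
    (hh : ∀ k, (F k).IsHomogeneous (dF k)) (hS : Snc F) {z : Fin R → K} {M : Fin R → ℕ}
    (hM : ∀ j, 0 < M j) {a : Fin R → Fin (d + 2) → ℕ}
    (hz : ∀ j, z j ^ M j = ∏ k, (aeval x (F k) / x 0 ^ dF k) ^ a j k)
    (hdiv : ∀ j, M j ∣ ∑ k, a j k * dF k)
    (hgen : IntermediateField.adjoin ℂ
      (Set.range (fun b : Fin (d + 1) => x b.succ / x 0) ∪ Set.range z) = ⊤)
    {c : (Fin (d + 2) → ℕ) → ℚ} (hc0 : c 0 = 0) (hc1 : ∀ v, c v ≤ 1)
    (hmul : ∀ v (r : ℕ), 1 ≤ r → Pool.Agent.Y169.TH.Adm M a v → 1 - c (r • v) ≤ r * (1 - c v))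
    (hfg : FG M a c) {δ : Place ℂ K → ℚ} (hδ : ∀ P, δ P = c (mul F dF x P)) :
    (BPsef (d + 1) δ → BGood (d + 1) δ) ∧ (BNef (d + 1) δ → BSemi (d + 1) δ) := by
  classical
  have hmain := (main_d hx0 hbas hd hh hS hM hz hdiv hgen hc0 hc1 hmul hfg hδ).1
  obtain ⟨Φ, rfl, C, rfl, rfl, hvv⟩ := exists_cv_d hx0 hbas hd hh hS hM hz hdiv hgen
  have hcf : Coef C c δ := ⟨hc0, hc1, fun P α v h => by rw [hδ, hvv P α v h]⟩
  have h1 : BPsef (d + 1) δ → BGood (d + 1) δ := by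
    intro hps
    obtain ⟨m0, r, ω, h1, h2, h3⟩ := gmm C hcf hmul hfg (hmain.1 hps)
    exact ⟨m0, r, ω, h1, h2, fun P _ => h3 P⟩
  refine ⟨h1, fun hn => semi_of_good (h1 ?_) hn⟩
  exact psef_of_nef (exists_divisorial C.u_bas C.bas_Y C.adj_le C.fin_Y) hn

end Pool.Agent.Q57.GM
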