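import Mathlib

/-!
Gordan's lemma.
-/

set_option autoImplicit false
set_option linter.unusedSectionVars false

namespace Pool.Agent.Q57.GM

section

variable {V ι : Type} [AddCommGroup V] [Fintype ι] [DecidableEq ι]

/-- Dickson's lemma for the translates of a cone -/
theorem dickson (L : V →+ (ι → ℤ)) (c : ι → ℤ) (A : Set V) (hA : ∀ γ ∈ A, ∀ s, - c s ≤ L γ s) :
    ∃ F : Finset V, (∀ f ∈ F, f ∈ A) ∧ ∀ γ ∈ A, ∃ f ∈ F, ∀ s, 0 ≤ L (γ - f) s := by
  classical
  let φ : V → (ι → ℕ) := fun γ s => (L γ s + c s).toNat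
  have hφ : ∀ γ ∈ A, ∀ s, ((φ γ s : ℕ) : ℤ) = L γ s + c s := by
    intro γ hγ s
    have := hA γ hγ s
    exact Int.toNat_of_nonneg (by linarith)
  have h1 : (φ '' A).IsPWO := Set.isPWO_of_wellQuasiOrderedLE _
  have h2 : {v | Minimal (· ∈ φ '' A) v}.Finite := by
    have h3 : IsAntichain (· ≤ ·) {v | Minimal (· ∈ φ '' A) v} := setOfPred_minimal_antichain _
    exact h3.finite_of_partiallyWellOrderedOn (Set.isPWO_of_wellQuasiOrderedLE _)
  have h4 : ∀ v ∈ {v | Minimal (· ∈ φ '' A) v}, ∃ γ ∈ A, φ γ = v := fun v hv => hv.1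
  choose! ψ hψ1 hψ2 using h4
  refine ⟨h2.toFinset.image ψ, fun f hf => ?_, fun γ hγ => ?_⟩
  · obtain ⟨v, hv, rfl⟩ := Finset.mem_image.1 hf
    exact hψ1 v (h2.mem_toFinset.1 hv)
  · obtain ⟨v, hv, hm⟩ := h1.exists_le_minimal ⟨γ, hγ, rfl⟩
    refine ⟨ψ v, Finset.mem_image_of_mem _ (h2.mem_toFinset.2 hm), fun s => ?_⟩
    have h5 := hφ γ hγ s
    have h6 := hφ (ψ v) (hψ1 v hm) s
    rw [hψ2 v hm] at h6
    have h7 : ((v s : ℕ) : ℤ) ≤ ((φ γ s : ℕ) : ℤ) := by exact_mod_cast hv s
    rw [map_sub, Pi.sub_apply]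
    linarith

/-- **Gordan's lemma.** -/
theorem gordan (L : V →+ (ι → ℤ)) (hL : Function.Injective L) :
    ∃ G : Finset V, (∀ g ∈ G, g ≠ 0 ∧ ∀ s, 0 ≤ L g s) ∧
      ∀ γ, (∀ s, 0 ≤ L γ s) → γ ∈ AddSubmonoid.closure (G : Set V) := by
  classical
  obtain ⟨G, hG1, hG2⟩ := dickson L 0 {γ | γ ≠ 0 ∧ ∀ s, 0 ≤ L γ s} fun γ hγ s => by
    simpa using hγ.2 s
  refine ⟨G, fun g hg => hG1 g hg, ?_⟩
  have key : ∀ (n : ℕ) (γ : V), (∀ s, 0 ≤ L γ s) → (∑ s, L γ s).toNat ≤ n →
      γ ∈ AddSubmonoid.closure (G : Set V) := by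
    intro n
    induction n with
    | zero =>
      intro γ hγ hn
      have h1 : ∑ s, L γ s ≤ 0 := by
        have := Int.self_le_toNat (∑ s, L γ s)
        omega
      have h2 : ∀ s, L γ s = 0 := by
        intro s
        have h3 := Finset.single_le_sum (f := fun s => L γ s) (fun s _ => hγ s) (Finset.mem_univ s)
        have h4 := hγ s
        linarith
      have h3 : γ = 0 := hL (by
        rw [map_zero]
        exact funext h2)
      rw [h3]
      exact zero_mem _
    | succ n ih =>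
      intro γ hγ hn
      by_cases h0 : γ = 0
      · rw [h0]
        exact zero_mem _
      obtain ⟨g, hg, hgγ⟩ := hG2 γ ⟨h0, hγ⟩
      have hg0 := hG1 g hg
      have h1 : 0 < ∑ s, L g s := by
        rcases (Finset.sum_nonneg fun s _ => hg0.2 s).lt_or_eq with h | h
        · exact h
        · exfalso
          apply hg0.1
          apply hL
          rw [map_zero]
          funext s
          exact (Finset.sum_eq_zero_iff_of_nonneg fun s _ => hg0.2 s).1 h.symm s (Finset.mem_univ s)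
      have h2 : γ = (γ - g) + g := (sub_add_cancel γ g).symm
      rw [h2]
      refine add_mem (ih (γ - g) hgγ ?_) (AddSubmonoid.subset_closure hg)
      have h3 : ∑ s, L (γ - g) s = ∑ s, L γ s - ∑ s, L g s := by
        rw [map_sub, ← Finset.sum_sub_distrib]
        rfl
      rw [h3]
      omega
  exact fun γ hγ => key _ γ hγ le_rfl

/-- **The perturbation.** -/
theorem perturb (L : V →+ (ι → ℤ)) (hL : Function.Injective L) (ℓ : V →+ ℤ)
    (hℓ : ∀ γ, (∀ s, 0 ≤ L γ s) → 0 ≤ ℓ γ) (c : ι → ℤ) :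
    ∃ C : ℤ, 0 ≤ C ∧ ∀ (γ : V) (j : ℤ), 0 ≤ j → (∀ s, - (c s * j) ≤ L γ s) → - (C * j) ≤ ℓ γ := by
  classical
  let L' : V × ℤ →+ (Option ι → ℤ) :=
    { toFun := fun p s => s.elim p.2 fun s => L p.1 s + c s * p.2
      map_zero' := by
        funext s
        rcases s with _ | s
        · rfl
        · simp
      map_add' := by
        intro p q
        funext s
        rcases s with _ | s
        · rfl
        · simp only [Option.elim_some, Prod.fst_add, Prod.snd_add, map_add, Pi.add_apply]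
          ring }
  have hL'n : ∀ p, L' p none = p.2 := fun p => rfl
  have hL's : ∀ p s, L' p (some s) = L p.1 s + c s * p.2 := fun p s => rfl
  have hL' : Function.Injective L' := by
    rw [injective_iff_map_eq_zero]
    intro p hp
    have h1 : p.2 = 0 := by
      have := congrFun hp none
      rwa [hL'n] at this
    have h2 : p.1 = 0 := by
      apply hL
      rw [map_zero]
      funext s
      have := congrFun hp (some s)
      rw [hL's, h1, mul_zero, add_zero] at this
      exact this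
    exact Prod.ext h2 h1
  obtain ⟨G, hG1, hG2⟩ := gordan L' hL'
  refine ⟨∑ g ∈ G, |ℓ g.1|, Finset.sum_nonneg fun _ _ => abs_nonneg _, fun γ j hj hγ => ?_⟩
  have h1 : (γ, j) ∈ AddSubmonoid.closure (G : Set (V × ℤ)) := by
    refine hG2 _ fun s => ?_
    rcases s with _ | s
    · exact hj
    · rw [hL's]
      have := hγ s
      dsimp only
      linarith
  have h2 : ∀ p ∈ AddSubmonoid.closure (G : Set (V × ℤ)), 0 ≤ p.2 ∧
      - ((∑ g ∈ G, |ℓ g.1|) * p.2) ≤ ℓ p.1 := by
    intro p hp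
    induction hp using AddSubmonoid.closure_induction with
    | mem g hg =>
      have h3 := (hG1 g hg).2
      have h4 : 0 ≤ g.2 := h3 none
      refine ⟨h4, ?_⟩
      rcases h4.lt_or_eq with h5 | h5
      · have h6 : |ℓ g.1| ≤ ∑ g ∈ G, |ℓ g.1| :=
          Finset.single_le_sum (f := fun g : V × ℤ => |ℓ g.1|) (fun _ _ => abs_nonneg _) hg
        have h7 := neg_abs_le (ℓ g.1)
        have h8 : 0 ≤ |ℓ g.1| := abs_nonneg _
        nlinarith
      · rw [← h5, mul_zero, neg_zero]
        refine hℓ _ fun s => ?_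
        have h6 := h3 (some s)
        rw [hL's, ← h5, mul_zero, add_zero] at h6
        exact h6
    | zero => simp
    | add p q _ _ hp hq =>
      refine ⟨add_nonneg hp.1 hq.1, ?_⟩
      rw [Prod.fst_add, Prod.snd_add, map_add, mul_add]
      linarith [hp.2, hq.2]
  exact (h2 _ h1).2

end

end Pool.Agent.Q57.GM
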