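import Pool.Agent.Q57.GM.Mod

/-!
Good minimal models: the asymptotic orders of the sections of `m (K + Δ) + j A` are computed by
finitely many sections of one multiple of `K + Δ`.
-/

set_option autoImplicit false
set_option linter.overlappingInstances false
set_option linter.unusedSectionVars false
set_option maxHeartbeats 1000000

open FF MvPolynomial Pool.Agent.W603.LV Pool.Agent.W619.PQ
open Pool.Agent.W619.TW Pool.Agent.W602.GT Pool.Agent.TH122.AB Pool.Agent.TH756.PN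
open Pool.Agent.Y169.CH Pool.Agent.W602.Cov Pool.Agent.W602.Cov.G Pool.Agent.Y169.TH
open Pool.Agent.Q57.TP Pool.Agent.TH152.AC

namespace Pool.Agent.Q57.GM

/-- the order of a sum -/
theorem ord_sum_low {K : Type} [Field K] [Algebra ℂ K] {n N0 : ℕ} (P : Place ℂ K) {Y : Fin n → K}
    (hY : ∀ b, Y b ≠ 0) (Rp : Fin N0 → MvPolynomial (Fin n) ℂ) (β : Fin N0 → K)
    (h : ∑ i, aeval Y (Rp i) * β i ≠ 0) :
    ∃ i, ∃ a ∈ (Rp i).support, ∑ b, (a b : ℤ) * P.ord (Y b) + P.ord (β i) ≤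
      P.ord (∑ i, aeval Y (Rp i) * β i) := by
  classical
  by_contra hcon
  push Not at hcon
  obtain ⟨M, hM⟩ : ∃ M, M = P.ord (∑ i, aeval Y (Rp i) * β i) := ⟨_, rfl⟩
  rw [← hM] at hcon
  have h1 : Ge P (M + 1) (∑ i, aeval Y (Rp i) * β i) := by
    refine Ge.sum _ _ fun i _ => ?_
    rw [(Rp i).as_sum, map_sum, Finset.sum_mul]
    refine Ge.sum _ _ fun a ha => ?_
    rw [aeval_monomial, Finsupp.prod_fintype _ _ fun i => pow_zero _]
    by_cases hβ : β i = 0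
    · left
      rw [hβ, mul_zero]
    have h2 := hcon i a ha
    have h3 : Ge P (∑ b, (a b : ℤ) * P.ord (Y b)) (∏ b, Y b ^ a b) := by
      right
      rw [ord_prod' P Finset.univ _ fun b _ => pow_ne_zero _ (hY b)]
      exact le_of_eq (Finset.sum_congr rfl fun b _ => (P.ord_pow _ _).symm)
    have h4 := (Ge.const (P := P) (coeff a (Rp i))).mul h3
    exact (h4.mul (ge_ord P (β i))).mono (by linarith)
  have h2 := h1.resolve_left h
  rw [← hM] at h2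
  linarith

variable {d : ℕ} {Φ : Arr (d + 1)} {K : Type} [Field K] [Algebra ℂ K] {R : ℕ} (C : Cv Φ K R)
  {c : (Fin (d + 2) → ℕ) → ℚ} {δ : Place ℂ K → ℚ}

/-- the lattice points with exact constraints satisfy all the inequalities -/
theorem exG_adm {T : Finset (Fin (d + 2) → ℕ)} (hT : Big C.M C.a c T) {L : ℕ} (hL : 0 < L)
    {p : T → ℤ} (hp : ∀ s : T, (L : ℚ) * (1 - c s.1) = p s) {κ : ℤ}
    {γ : ℤ × (Fin (d + 2) → ℤ)} (h : ExG T Φ.ee Φ.E L κ p γ) {v : Fin (d + 2) → ℕ}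
    (hv : Pool.Agent.Y169.TH.Adm C.M C.a v) :
    (γ.1 : ℚ) * (1 - c v) ≤ ((∑ k, (Φ.ee k : ℤ) * v k * γ.2 k : ℤ) : ℚ) := by
  classical
  obtain ⟨w, hw, hwv, hwc⟩ := hT.gen v hv
  have hLq : (0 : ℚ) < L := by exact_mod_cast hL
  have hm : (0 : ℚ) ≤ γ.1 := by exact_mod_cast h (Sum.inr (Sum.inr 0))
  have h1 : ∀ s : T, (γ.1 : ℚ) * (1 - c s.1) ≤ ∑ k, (Φ.ee k : ℚ) * s.1 k * γ.2 k := by
    intro s
    have h2 := h (Sum.inl s)
    rw [cons_vec] at h2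
    have h3 : ((p s * γ.1 : ℤ) : ℚ) ≤ ((L * ∑ k, (Φ.ee k : ℤ) * s.1 k * γ.2 k : ℤ) : ℚ) := by
      exact_mod_cast (by linarith : p s * γ.1 ≤ L * ∑ k, (Φ.ee k : ℤ) * s.1 k * γ.2 k)
    push_cast at h3
    rw [← hp s] at h3
    have h4 : (L : ℚ) * ((γ.1 : ℚ) * (1 - c s.1)) ≤
        L * ∑ k, (Φ.ee k : ℚ) * s.1 k * γ.2 k := by
      linarith
    exact le_of_mul_le_mul_left h4 hLq
  have h2 : ∀ k, (0 : ℚ) ≤ Φ.ee k * γ.2 k := by
    intro k
    have h3 : 0 ≤ γ.2 k := h (Sum.inr (Sum.inl k))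
    have h4 : (0 : ℚ) ≤ γ.2 k := by exact_mod_cast h3
    positivity
  calc (γ.1 : ℚ) * (1 - c v) ≤ γ.1 * ∑ s ∈ T, w s * (1 - c s) :=
        mul_le_mul_of_nonneg_left hwc hm
    _ = ∑ s ∈ T, w s * (γ.1 * (1 - c s)) := by
        rw [Finset.mul_sum]
        exact Finset.sum_congr rfl fun s _ => by ring
    _ ≤ ∑ s ∈ T, w s * ∑ k, (Φ.ee k : ℚ) * s k * γ.2 k :=
        Finset.sum_le_sum fun s hs => mul_le_mul_of_nonneg_left (h1 ⟨s, hs⟩) (hw s)
    _ = ∑ k, (∑ s ∈ T, w s * s k) * (Φ.ee k * γ.2 k) := by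
        simp only [Finset.mul_sum, Finset.sum_mul]
        rw [Finset.sum_comm]
        exact Finset.sum_congr rfl fun k _ => Finset.sum_congr rfl fun s _ => by ring
    _ ≤ ∑ k, (v k : ℚ) * (Φ.ee k * γ.2 k) :=
        Finset.sum_le_sum fun k _ => mul_le_mul_of_nonneg_right (hwv k) (h2 k)
    _ = _ := by
        push_cast
        exact Finset.sum_congr rfl fun k _ => by ring

/-- a rational point of the polyhedron gives a lattice point -/
theorem exists_exG {T : Finset (Fin (d + 2) → ℕ)} (hcf : Coef C c δ) (hT : Big C.M C.a c T)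
    {L : ℕ} {p : T → ℤ} (hp : ∀ s : T, (L : ℚ) * (1 - c s.1) = p s)
    (hne : (PiC C.M C.a Φ.dF c).Nonempty) :
    0 ≤ ∑ k, (Φ.dF k : ℤ) - (d + 2) ∧
    ∃ γ : ℤ × (Fin (d + 2) → ℤ),
      ExG T Φ.ee Φ.E L (∑ k, (Φ.dF k : ℤ) - (d + 2)) p γ ∧ γ ≠ 0 := by
  classical
  obtain ⟨y, hy1, hy2⟩ := hne
  have hy0 : ∀ k, 0 ≤ y k := by
    intro k
    have h4 := low_of_big C.hM hT (C := 0) le_rfl (y := y) (fun s hs => by
      have h5 := hy2 s (hT.adm s hs)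
      have h6 := hcf.le s
      rw [dotL_apply]
      unfold qv
      linarith) k
    linarith
  have hκ : (0 : ℚ) ≤ ((∑ k, (Φ.dF k : ℤ) - (d + 2) : ℤ) : ℚ) := by
    push_cast
    push_cast at hy1
    rw [show ((d : ℚ) + 2) = (d : ℚ) + 1 + 1 by ring] at *
    have h1 : 0 ≤ ∑ k, (Φ.dF k : ℚ) * y k :=
      Finset.sum_nonneg fun k _ => mul_nonneg (by positivity) (hy0 k)
    linarith
  refine ⟨by exact_mod_cast hκ, ?_⟩
  obtain ⟨T0, hT0, hden⟩ := exists_den y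
  choose w hw using hden
  have hE : (0 : ℚ) < Φ.E := by exact_mod_cast Φ.E_pos
  have hT0q : (0 : ℚ) < T0 := by exact_mod_cast hT0
  have hee : ∀ k, (Φ.ee k : ℚ) * (((Φ.dF k : ℤ) * w k : ℤ) : ℚ) = (Φ.E * T0 : ℚ) * y k := by
    intro k
    have h1 : (Φ.dF k : ℚ) * Φ.ee k = Φ.E := by exact_mod_cast Φ.d_ee k
    push_cast
    rw [← hw k, ← h1]
    ring
  refine ⟨((Φ.E * T0 : ℕ), fun k => (Φ.dF k : ℤ) * w k), fun s => ?_, ?_⟩
  · have hEsum : (Φ.E : ℤ) * ∑ k, (Φ.dF k : ℤ) * w k =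
        (∑ k, (Φ.dF k : ℤ) - (d + 2)) * ((Φ.E * T0 : ℕ) : ℤ) := by
      have h1 : (((Φ.E : ℤ) * ∑ k, (Φ.dF k : ℤ) * w k : ℤ) : ℚ) =
          (((∑ k, (Φ.dF k : ℤ) - (d + 2)) * ((Φ.E * T0 : ℕ) : ℤ) : ℤ) : ℚ) := by
        push_cast
        have h2 : ∑ k, (Φ.dF k : ℚ) * (w k : ℚ) = T0 * (∑ k, (Φ.dF k : ℚ) - (d + 2)) := by
          have h3 : ∀ k, (Φ.dF k : ℚ) * (w k : ℚ) = T0 * (Φ.dF k * y k) := by
            intro k
            rw [← hw k]
            ring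
          rw [Finset.sum_congr rfl fun k _ => h3 k, ← Finset.mul_sum, hy1]
          push_cast
          ring
        rw [h2]
        ring
      exact_mod_cast h1
    rcases s with s | k | i
    · rw [cons_vec]
      have h1 : (0 : ℚ) ≤ ((L * ∑ k, (Φ.ee k : ℤ) * s.1 k * ((Φ.dF k : ℤ) * w k) -
          p s * ((Φ.E * T0 : ℕ) : ℤ) : ℤ) : ℚ) := by
        push_cast
        rw [← hp s]
        have h2 : ∑ k, (Φ.ee k : ℚ) * s.1 k * ((Φ.dF k : ℚ) * w k) =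
            (Φ.E * T0 : ℚ) * ∑ k, (s.1 k : ℚ) * y k := by
          rw [Finset.mul_sum]
          refine Finset.sum_congr rfl fun k _ => ?_
          have h3 := hee k
          push_cast at h3
          calc (Φ.ee k : ℚ) * s.1 k * ((Φ.dF k : ℚ) * w k) =
              s.1 k * ((Φ.ee k : ℚ) * ((Φ.dF k : ℚ) * w k)) := by ring
            _ = _ := by
              rw [h3]
              ring
        rw [h2]
        have h4 := hy2 s.1 (hT.adm _ s.2)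
        have h5 : (0 : ℚ) ≤ L * (Φ.E * T0) := by positivity
        have h6 := mul_le_mul_of_nonneg_left h4 h5
        linarith
      exact_mod_cast h1
    · rw [cons_coord]
      have h1 : (0 : ℚ) ≤ (((Φ.dF k : ℤ) * w k : ℤ) : ℚ) := by
        push_cast
        rw [← hw k]
        have := hy0 k
        positivity
      exact_mod_cast h1
    · fin_cases i
      · change (0 : ℤ) ≤ ((Φ.E * T0 : ℕ) : ℤ)
        positivity
      · change (0 : ℤ) ≤ Φ.E * ∑ k, (Φ.dF k : ℤ) * w k -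
          (∑ k, (Φ.dF k : ℤ) - (d + 2)) * ((Φ.E * T0 : ℕ) : ℤ)
        rw [hEsum, sub_self]
      · change (0 : ℤ) ≤ (∑ k, (Φ.dF k : ℤ) - (d + 2)) * ((Φ.E * T0 : ℕ) : ℤ) -
          Φ.E * ∑ k, (Φ.dF k : ℤ) * w k
        rw [hEsum, sub_self]
  · intro h0
    have h1 := congrArg Prod.fst h0
    have h2 : 0 < Φ.E * T0 := Nat.mul_pos Φ.E_pos hT0
    have h3 : ((Φ.E * T0 : ℕ) : ℤ) = 0 := h1
    omega

/-- the functional of a vector -/
def lv (e v : Fin (d + 2) → ℕ) : (ℤ × (Fin (d + 2) → ℤ)) →+ ℤ :=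
  AddMonoidHom.mk' (fun γ => ∑ k, (e k : ℤ) * v k * γ.2 k) (by
    intro x y
    simp only [Prod.snd_add, Pi.add_apply, mul_add, Finset.sum_add_distrib])

theorem lv_apply (e v : Fin (d + 2) → ℕ) (γ : ℤ × (Fin (d + 2) → ℤ)) :
    lv e v γ = ∑ k, (e k : ℤ) * v k * γ.2 k := rfl

/-- **The asymptotic orders.** -/
theorem gmm (hcf : Coef C c δ)
    (hmul : ∀ v (r : ℕ), 1 ≤ r → Pool.Agent.Y169.TH.Adm C.M C.a v → 1 - c (r • v) ≤ r * (1 - c v))
    (hfg : FG C.M C.a c) (hne : (PiC C.M C.a Φ.dF c).Nonempty) :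
    ∃ (m0 r : ℕ) (ω : Fin r → (Fin (d + 1) → Derivation ℂ K K) → K), 0 < m0 ∧
      (∀ i, BSec (d + 1) δ {1} m0 1 (ω i)) ∧
      ∀ P : Place ℂ K, ∃ i, ∀ S : Finset K, ∃ C1 : ℤ, ∀ (m j : ℕ)
        (η : (Fin (d + 1) → Derivation ℂ K K) → K), 1 ≤ m → BSec (d + 1) δ S m j η →
        ∀ D, η D = 0 ∨ (ω i D ≠ 0 ∧
          (m : ℤ) * P.ord (ω i D) ≤ m0 * P.ord (η D) + C1 * (j + 1)) := by
  classical
  obtain ⟨T, hT⟩ := exists_big C.hM (by omega) hfg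
  obtain ⟨L, hL, hden⟩ := exists_den fun s : T => 1 - c s.1
  choose p hp using hden
  obtain ⟨κ, hκd⟩ : ∃ κ : ℤ, κ = ∑ k, (Φ.dF k : ℤ) - (d + 2) := ⟨_, rfl⟩
  obtain ⟨hκ0, γ0, hγ0, hγ00⟩ := exists_exG C hcf hT hp hne
  rw [← hκd] at hκ0 hγ0
  have hEpos : (0 : ℤ) < Φ.E := by exact_mod_cast Φ.E_pos
  obtain ⟨G, hG1, hG2⟩ := gordan (cons T Φ.ee Φ.E L κ p) cons_inj
  have hGne : G.Nonempty := by
    by_contra hcon
    rw [Finset.not_nonempty_iff_eq_empty] at hcon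
    have h1 := hG2 γ0 hγ0
    rw [hcon, Finset.coe_empty, AddSubmonoid.closure_empty, AddSubmonoid.mem_bot] at h1
    exact hγ00 h1
  have hGpos : ∀ g ∈ G, 0 < g.1 := fun g hg => ExG.pos hEpos (hG1 g hg).2 (hG1 g hg).1
  -- the common multiple
  obtain ⟨m0, hm0⟩ : ∃ m0 : ℕ, (m0 : ℤ) = ∏ g ∈ G, g.1 :=
    ⟨(∏ g ∈ G, g.1).toNat, Int.toNat_of_nonneg (Finset.prod_nonneg fun g hg => (hGpos g hg).le)⟩
  have hm0pos : 0 < m0 := by
    have h1 : 0 < ∏ g ∈ G, g.1 := Finset.prod_pos hGpos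
    omega
  have htt : ∀ g ∈ G, ∃ t : ℤ, 0 ≤ t ∧ (m0 : ℤ) = g.1 * t := by
    intro g hg
    refine ⟨∏ h ∈ G.erase g, h.1, Finset.prod_nonneg fun h hh =>
      (hGpos h (Finset.mem_of_mem_erase hh)).le, ?_⟩
    rw [hm0, Finset.mul_prod_erase G (fun g => g.1) hg]
  choose! t ht0 ht using htt
  -- the sections
  have hadm : ∀ g ∈ G, ExG T Φ.ee Φ.E L κ p (t g • g) := by
    intro g hg s
    rw [map_zsmul, Pi.smul_apply, smul_eq_mul]
    exact mul_nonneg (ht0 g hg) ((hG1 g hg).2 s)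
  have hEg : ∀ g ∈ G, (Φ.E : ℤ) * ∑ k, (fun k => t g * g.2 k) k =
      (∑ k, (Φ.dF k : ℤ) - (d + 2)) * m0 := by
    intro g hg
    have h1 := ExG.eq (hG1 g hg).2
    rw [← hκd, ht g hg, ← Finset.mul_sum]
    calc (Φ.E : ℤ) * (t g * ∑ k, g.2 k) = t g * (Φ.E * ∑ k, g.2 k) := by ring
      _ = _ := by
        rw [h1]
        ring
  have hsec : ∀ g ∈ G, BSec (d + 1) δ {1} m0 1 (sG C m0 fun k => t g * g.2 k) := by
    intro g hg
    refine sG_sec C hcf (hEg g hg) fun v hv => ?_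
    have h1 := exG_adm C hT hL hp (hadm g hg) hv
    have h2 : ((t g • g).1 : ℤ) = m0 := by
      rw [ht g hg, Prod.smul_fst, smul_eq_mul, mul_comm]
    rw [h2] at h1
    exact_mod_cast h1
  refine ⟨m0, G.card, fun i => sG C m0 fun k => t (G.equivFin.symm i).1 * (G.equivFin.symm i).1.2 k,
    hm0pos, fun i => hsec _ (G.equivFin.symm i).2, fun P => ?_⟩
  obtain ⟨α, v, hα, hdat⟩ := C.exists_dat P
  obtain ⟨g, hg, hslope⟩ := exists_slope hEpos hGne hG1 hG2 (lv Φ.ee v)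
  refine ⟨G.equivFin ⟨g, hg⟩, fun S => ?_⟩
  simp only [Equiv.symm_apply_apply]
  -- the directions
  choose X hX using fun s : T => C.exists_dir (hT.adm s.1 s.2)
  obtain ⟨D0, hD0'⟩ := exists_dual C.u_bas
  have hD0 : ∀ i j, D0 i (C.u j) = if i = j then 1 else 0 := by
    intro i j
    have h1 := congrFun (congrFun hD0' i) j
    rw [Matrix.of_apply, Matrix.one_apply] at h1
    exact h1
  obtain ⟨N0, β, Q, c1, hQ, hstr⟩ := sec_str_d C hcf hmul X hD0 S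
  obtain ⟨Cs, hCs0, hCs⟩ := hslope (Sum.elim (fun _ => (L : ℤ) * c1)
    (Sum.elim (fun _ => (c1 : ℤ)) fun _ => (c1 : ℤ) + Φ.E))
  obtain ⟨B, hB⟩ : ∃ B : ℤ, B = ∑ i, |P.ord (β i)| := ⟨_, rfl⟩
  have hB0 : 0 ≤ B := by
    rw [hB]
    exact Finset.sum_nonneg fun _ _ => abs_nonneg _
  have hBle : ∀ i, - B ≤ P.ord (β i) := by
    intro i
    have h1 := Finset.single_le_sum (f := fun i => |P.ord (β i)|) (fun _ _ => abs_nonneg _)
      (Finset.mem_univ i)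
    have h2 := neg_abs_le (P.ord (β i))
    rw [hB]
    linarith
  refine ⟨t g * Cs + m0 * (|α| * (c1 + Φ.E)) + m0 * B + m0 * |P.ord Q|,
    fun m j η hm hη D => ?_⟩
  by_cases hηD : η D = 0
  · exact Or.inl hηD
  right
  have hpl := pluri_eq C hD0 hη.1 D
  have hbw : bw D C.x ≠ 0 := by
    intro h0
    apply hηD
    rw [hpl, h0, zero_pow (by omega), zero_mul]
  have hη0 : η D0 ≠ 0 := by
    intro h0
    apply hηD
    rw [hpl, h0, mul_zero]
  refine ⟨mul_ne_zero (pow_ne_zero _ hbw) (prod_ne C m0 _), ?_⟩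
  -- the degree
  obtain ⟨q, hq1, hq2⟩ : ∃ q : ℕ, κ * m + c1 * (j + 1) ≤ Φ.E * q ∧
      (Φ.E : ℤ) * q ≤ κ * m + c1 * (j + 1) + Φ.E := by
    have h1 : 0 ≤ κ * m + c1 * (j + 1) := by positivity
    refine ⟨(κ * m + c1 * (j + 1)).toNat / Φ.E + 1, ?_, ?_⟩
    · have h2 := Nat.lt_mul_div_succ (κ * m + c1 * (j + 1)).toNat Φ.E_pos
      have h3 : (((κ * m + c1 * (j + 1)).toNat : ℕ) : ℤ) = κ * m + c1 * (j + 1) :=
        Int.toNat_of_nonneg h1
      rw [← h3]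
      exact_mod_cast h2.le
    · have h2 := Nat.mul_div_le (κ * m + c1 * (j + 1)).toNat Φ.E
      have h3 : (((κ * m + c1 * (j + 1)).toNat : ℕ) : ℤ) = κ * m + c1 * (j + 1) :=
        Int.toNat_of_nonneg h1
      have h4 : ((Φ.E * ((κ * m + c1 * (j + 1)).toNat / Φ.E) : ℕ) : ℤ) ≤
          κ * m + c1 * (j + 1) := by
        rw [← h3]
        exact_mod_cast h2
      push_cast at h4 ⊢
      rw [mul_add, mul_one]
      linarith
  obtain ⟨Rp, hR, hRs⟩ := hstr m j q η (bsec_sec hη) (by rw [← hκd]; exact hq1)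
  obtain ⟨z, hz⟩ : ∃ z, z = η D0 * C.Lam m := ⟨_, rfl⟩
  have hz0 : z ≠ 0 := by
    rw [hz]
    exact mul_ne_zero hη0 (C.Lam_ne m)
  rw [← hz] at hR
  have hG0 : aeval C.x (Φ.G 0) ≠ 0 := C.G_ne 0
  have hsum : ∑ i, aeval C.Y (Rp i) * β i ≠ 0 := by
    rw [← hR]
    exact mul_ne_zero (div_ne_zero hz0 (pow_ne_zero _ hG0)) (pow_ne_zero _ hQ)
  obtain ⟨i, a, ha, hia⟩ := ord_sum_low P C.Y_ne Rp β hsum
  rw [← hR, P.ord_mul (div_ne_zero hz0 (pow_ne_zero _ hG0)) (pow_ne_zero _ hQ),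
    P.ord_div hz0 (pow_ne_zero _ hG0), P.ord_pow, P.ord_pow, C.ord_G hdat] at hia
  -- the lattice point
  obtain ⟨a', ha'⟩ : ∃ a' : Fin (d + 2) → ℤ,
    a' = Fin.cases ((q : ℤ) - ∑ b, (a b : ℤ)) fun b => (a b : ℤ) := ⟨_, rfl⟩
  have ha0 : a' 0 = (q : ℤ) - ∑ b, (a b : ℤ) := by rw [ha']; rfl
  have has : ∀ b : Fin (d + 1), a' b.succ = a b := fun b => by rw [ha']; rfl
  have hsuma : ∑ k, a' k = q := by
    rw [Fin.sum_univ_succ, ha0, Finset.sum_congr rfl fun b _ => has b]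
    ring
  have hlin : ∀ w : Fin (d + 2) → ℕ, ∑ k, (Φ.ee k : ℤ) * w k * a' k =
      (Φ.ee 0 * w 0 : ℤ) * (q - ∑ b, (a b : ℤ)) +
        ∑ b, (Φ.ee b.succ * w b.succ : ℤ) * a b := by
    intro w
    rw [Fin.sum_univ_succ, ha0]
    congr 1
    exact Finset.sum_congr rfl fun b _ => by rw [has]
  have hT1 : ∀ s : T, (1 - c s.1) * m - c1 * (j + 1) ≤
      ((∑ k, (Φ.ee k : ℤ) * s.1 k * a' k : ℤ) : ℚ) := by
    intro s
    have h1 := hRs i a ha s
    rw [hX, ← hlin] at h1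
    exact h1
  have hcons : ∀ s, - ((Sum.elim (fun _ => (L : ℤ) * c1)
      (Sum.elim (fun _ => (c1 : ℤ)) fun _ => (c1 : ℤ) + Φ.E) : T ⊕ (Fin (d + 2) ⊕ Fin 3) → ℤ) s *
        ((j : ℤ) + 1)) ≤ cons T Φ.ee Φ.E L κ p ((m : ℤ), a') s := by
    intro s
    rcases s with s | k | l
    · rw [cons_vec, Sum.elim_inl]
      have h1 := hT1 s
      have hLq : (0 : ℚ) < L := by exact_mod_cast hL
      have h2 := mul_le_mul_of_nonneg_left h1 hLq.le
      have h3 : (((- ((L : ℤ) * c1 * (j + 1)) : ℤ)) : ℚ) ≤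
          ((L * ∑ k, (Φ.ee k : ℤ) * s.1 k * a' k - p s * m : ℤ) : ℚ) := by
        push_cast at h2 ⊢
        rw [← hp s]
        linarith
      exact_mod_cast h3
    · rw [cons_coord, Sum.elim_inr, Sum.elim_inl]
      have h1 := hT1 ⟨_, hT.unit k⟩
      have h2 : ∑ l, (Φ.ee l : ℤ) * uv C.M k l * a' l = Φ.ee k * per C.M * a' k := by
        rw [Finset.sum_eq_single k]
        · unfold uv
          rw [if_pos rfl]
        · intro l _ hl
          unfold uv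
          rw [if_neg hl]
          simp
        · intro h
          exact absurd (Finset.mem_univ _) h
      dsimp only at h1
      rw [h2] at h1
      have h3 := hcf.le (uv C.M k)
      have h4 : (0 : ℚ) ≤ (1 - c (uv C.M k)) * m := mul_nonneg (by linarith) (by positivity)
      have h5 : (((- ((c1 : ℤ) * (j + 1)) : ℤ)) : ℚ) ≤
          ((Φ.ee k * per C.M * a' k : ℤ) : ℚ) := by
        push_cast at h1 ⊢
        linarith
      have h6 : - ((c1 : ℤ) * (j + 1)) ≤ Φ.ee k * per C.M * a' k := by exact_mod_cast h5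
      by_cases h7 : 0 ≤ a' k
      · have : (0 : ℤ) ≤ (c1 : ℤ) * (j + 1) := by positivity
        linarith
      · push Not at h7
        have h8 : (1 : ℤ) ≤ Φ.ee k * per C.M := by
          have h9 := Nat.mul_pos (Φ.ee_pos k) (per_pos C.hM)
          exact_mod_cast h9
        nlinarith
    · have h1 : (0 : ℤ) ≤ (c1 : ℤ) * (j + 1) := by positivity
      have h2 : (0 : ℤ) ≤ (Φ.E : ℤ) * j := by positivity
      have h3 : - (((c1 : ℤ) + Φ.E) * ((j : ℤ) + 1)) ≤ 0 := by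
        have : (0 : ℤ) ≤ ((c1 : ℤ) + Φ.E) * ((j : ℤ) + 1) := by positivity
        linarith
      fin_cases l
      · change - (((c1 : ℤ) + Φ.E) * ((j : ℤ) + 1)) ≤ (m : ℤ)
        have : (0 : ℤ) ≤ (m : ℤ) := by positivity
        linarith
      · change - (((c1 : ℤ) + Φ.E) * ((j : ℤ) + 1)) ≤ Φ.E * ∑ k, a' k - κ * m
        rw [hsuma]
        linarith
      · change - (((c1 : ℤ) + Φ.E) * ((j : ℤ) + 1)) ≤ κ * m - Φ.E * ∑ k, a' k
        rw [hsuma]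
        linarith
  have hs := hCs ((m : ℤ), a') ((j : ℤ) + 1) (by positivity) hcons
  rw [lv_apply, lv_apply] at hs
  dsimp only at hs
  -- the orders
  rw [ord_sG C hdat hbw (hEg g hg)]
  have hord : P.ord (η D) = m * P.ord (bw D C.x) + P.ord z -
      m * ∑ k, ((Φ.dF k : ℤ) * α + v k) := by
    have h1 : P.ord z = P.ord (η D0) + m * ∑ k, ((Φ.dF k : ℤ) * α + v k) := by
      rw [hz, P.ord_mul hη0 (C.Lam_ne m), C.ord_Lam]
      congr 2
      exact Finset.sum_congr rfl fun k _ => hdat.hv k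
    rw [hpl, P.ord_mul (pow_ne_zero _ hbw) hη0, P.ord_pow]
    linarith
  rw [hord]
  have hYs : ∑ b, (a b : ℤ) * P.ord (C.Y b) = ∑ k, (Φ.ee k : ℤ) * v k * a' k -
      q * (Φ.ee 0 * v 0) := by
    rw [hlin]
    have h1 : ∀ b, (a b : ℤ) * P.ord (C.Y b) = (Φ.ee b.succ * v b.succ : ℤ) * a b -
        (a b : ℤ) * (Φ.ee 0 * v 0) := by
      intro b
      rw [C.ord_Y hdat]
      ring
    rw [Finset.sum_congr rfl fun b _ => h1 b, Finset.sum_sub_distrib, ← Finset.sum_mul]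
    ring
  rw [hYs] at hia
  have hβ := hBle i
  have htg : ∑ k, (Φ.ee k : ℤ) * v k * (fun k => t g * g.2 k) k =
      t g * ∑ k, (Φ.ee k : ℤ) * v k * g.2 k := by
    rw [Finset.mul_sum]
    exact Finset.sum_congr rfl fun k _ => by ring
  rw [htg, ← hκd]
  obtain ⟨ℓa, hℓa⟩ : ∃ ℓa, ℓa = ∑ k, (Φ.ee k : ℤ) * v k * a' k := ⟨_, rfl⟩
  obtain ⟨ℓg, hℓg⟩ : ∃ ℓg, ℓg = ∑ k, (Φ.ee k : ℤ) * v k * g.2 k := ⟨_, rfl⟩
  obtain ⟨bD, hbD⟩ : ∃ bD, bD = P.ord (bw D C.x) := ⟨_, rfl⟩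
  obtain ⟨XX, hXX⟩ : ∃ XX, XX = ∑ k, ((Φ.dF k : ℤ) * α + v k) := ⟨_, rfl⟩
  obtain ⟨oz, hoz⟩ : ∃ oz, oz = P.ord z := ⟨_, rfl⟩
  obtain ⟨oQ, hoQ⟩ : ∃ oQ, oQ = P.ord Q := ⟨_, rfl⟩
  rw [← hℓa] at hia hs
  rw [← hℓg] at hs ⊢
  rw [← hbD, ← hXX, ← hoz]
  rw [← hoz, ← hoQ] at hia
  rw [← hoQ]
  have hm0' := ht g hg
  have htg0 := ht0 g hg
  -- the lower bound for `oz`
  have h1 : Φ.E * q * α + ℓa - B - (j + 1) * |oQ| ≤ oz := by
    have h2 : ((j + 1 : ℕ) : ℤ) * oQ ≤ (j + 1) * |oQ| := by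
      push_cast
      exact mul_le_mul_of_nonneg_left (le_abs_self _) (by positivity)
    linarith
  -- the slope
  have h3 : (m : ℤ) * (t g * ℓg) ≤ m0 * ℓa + t g * (Cs * (j + 1)) := by
    have h4 := mul_le_mul_of_nonneg_left hs htg0
    rw [hm0']
    linarith
  -- the degree
  have h5 : κ * m * α ≤ Φ.E * q * α + |α| * ((c1 + Φ.E) * (j + 1)) := by
    have h6 : 0 ≤ Φ.E * q - κ * m := by
      have : (0 : ℤ) ≤ (c1 : ℤ) * (j + 1) := by positivity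
      linarith
    have h7 : Φ.E * q - κ * m ≤ (c1 + Φ.E) * (j + 1) := by
      have : (0 : ℤ) ≤ (Φ.E : ℤ) * j := by positivity
      linarith
    have h8 : - α = |α| := (abs_of_nonpos hα).symm
    have h9 : |α| * (Φ.E * q - κ * m) ≤ |α| * ((c1 + Φ.E) * (j + 1)) :=
      mul_le_mul_of_nonneg_left h7 (abs_nonneg _)
    rw [← h8] at h9 ⊢
    linarith
  have hm0q : (0 : ℤ) ≤ m0 := by positivity
  have h6 := mul_le_mul_of_nonneg_left h1 hm0q
  have h7 := mul_le_mul_of_nonneg_left h5 hm0q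
  have h8 : (m0 : ℤ) * B ≤ m0 * B * (j + 1) := by
    have : (0 : ℤ) ≤ m0 * B * j := by positivity
    linarith
  linarith

end Pool.Agent.Q57.GM
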