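import Pool.Agent.Q57.GM.Sec
import Pool.Agent.Q57.GM.Gor
import Pool.Agent.Q57.TP.Mak

/-!
The sections of finitely many lattice points compute the asymptotic orders of the sections of
`m (K + Δ) + j A`.
-/

set_option autoImplicit false
set_option linter.overlappingInstances false
set_option linter.unusedSectionVars false
set_option maxHeartbeats 1000000

open FF MvPolynomial Pool.Agent.W603.LV Pool.Agent.W619.PQ
open Pool.Agent.W619.TW Pool.Agent.W602.GT Pool.Agent.TH122.AB Pool.Agent.TH756.PN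
open Pool.Agent.Y169.CH Pool.Agent.W602.Cov Pool.Agent.W602.Cov.G Pool.Agent.Y169.TH
open Pool.Agent.Q57.TP Pool.Agent.TH152.AC

namespace Pool.Agent.Q57.GM

section lat

variable {N : ℕ}

/-- the constraints for the exponents -/
def cons (T : Finset (Fin N → ℕ)) (e : Fin N → ℕ) (E L κ : ℤ) (p : T → ℤ) :
    (ℤ × (Fin N → ℤ)) →+ ((T ⊕ (Fin N ⊕ Fin 3)) → ℤ) :=
  AddMonoidHom.mk' (fun γ => Sum.elim (fun s => L * ∑ k, (e k : ℤ) * s.1 k * γ.2 k - p s * γ.1)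
    (Sum.elim (fun k => γ.2 k) (fun i => if i = 0 then γ.1 else if i = 1 then
      E * ∑ k, γ.2 k - κ * γ.1 else κ * γ.1 - E * ∑ k, γ.2 k))) (by
    intro x y
    funext s
    rcases s with s | k | i
    · simp only [Sum.elim_inl, Pi.add_apply, Prod.fst_add, Prod.snd_add, mul_add,
        Finset.sum_add_distrib]
      ring
    · simp only [Sum.elim_inl, Sum.elim_inr, Pi.add_apply, Prod.snd_add]
    · simp only [Sum.elim_inr, Pi.add_apply, Prod.fst_add, Prod.snd_add, Finset.sum_add_distrib]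
      split_ifs <;> ring)

variable {T : Finset (Fin N → ℕ)} {e : Fin N → ℕ} {E L κ : ℤ} {p : T → ℤ}

theorem cons_vec (γ : ℤ × (Fin N → ℤ)) (s : T) : cons T e E L κ p γ (Sum.inl s) =
    L * ∑ k, (e k : ℤ) * s.1 k * γ.2 k - p s * γ.1 := rfl

theorem cons_coord (γ : ℤ × (Fin N → ℤ)) (k : Fin N) :
    cons T e E L κ p γ (Sum.inr (Sum.inl k)) = γ.2 k := rfl

theorem cons_m (γ : ℤ × (Fin N → ℤ)) : cons T e E L κ p γ (Sum.inr (Sum.inr 0)) = γ.1 := rfl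

theorem cons_1 (γ : ℤ × (Fin N → ℤ)) : cons T e E L κ p γ (Sum.inr (Sum.inr 1)) =
    E * ∑ k, γ.2 k - κ * γ.1 := rfl

theorem cons_2 (γ : ℤ × (Fin N → ℤ)) : cons T e E L κ p γ (Sum.inr (Sum.inr 2)) =
    κ * γ.1 - E * ∑ k, γ.2 k := rfl

theorem cons_inj : Function.Injective (cons T e E L κ p) := by
  rw [injective_iff_map_eq_zero]
  intro γ hγ
  refine Prod.ext ?_ ?_
  · exact congrFun hγ (Sum.inr (Sum.inr 0))
  · funext k
    exact congrFun hγ (Sum.inr (Sum.inl k))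

/-- the lattice points with the exact constraints -/
def ExG (T : Finset (Fin N → ℕ)) (e : Fin N → ℕ) (E L κ : ℤ) (p : T → ℤ)
    (γ : ℤ × (Fin N → ℤ)) : Prop := ∀ s, 0 ≤ cons T e E L κ p γ s

theorem ExG.eq {γ : ℤ × (Fin N → ℤ)} (h : ExG T e E L κ p γ) : E * ∑ k, γ.2 k = κ * γ.1 := by
  have h1 := h (Sum.inr (Sum.inr 1))
  have h2 := h (Sum.inr (Sum.inr 2))
  rw [cons_1] at h1
  rw [cons_2] at h2
  linarith

theorem ExG.pos {γ : ℤ × (Fin N → ℤ)} (hE : 0 < E) (h : ExG T e E L κ p γ) (h0 : γ ≠ 0) :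
    0 < γ.1 := by
  rcases (h (Sum.inr (Sum.inr 0))).lt_or_eq with h1 | h1
  · exact h1
  exfalso
  rw [cons_m] at h1
  apply h0
  have h2 := h.eq
  rw [← h1, mul_zero] at h2
  have h3 : ∑ k, γ.2 k = 0 := (mul_eq_zero.1 h2).resolve_left hE.ne'
  have h4 : ∀ k, 0 ≤ γ.2 k := fun k => h (Sum.inr (Sum.inl k))
  refine Prod.ext h1.symm ?_
  funext k
  exact (Finset.sum_eq_zero_iff_of_nonneg fun k _ => h4 k).1 h3 k (Finset.mem_univ k)

/-- the minimal slope of a functional -/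
theorem exists_slope (hE : 0 < E) {G : Finset (ℤ × (Fin N → ℤ))} (hne : G.Nonempty)
    (hG1 : ∀ g ∈ G, g ≠ 0 ∧ ExG T e E L κ p g)
    (hG2 : ∀ γ, ExG T e E L κ p γ → γ ∈ AddSubmonoid.closure (G : Set (ℤ × (Fin N → ℤ))))
    (ℓ : (ℤ × (Fin N → ℤ)) →+ ℤ) :
    ∃ g ∈ G, ∀ c : T ⊕ (Fin N ⊕ Fin 3) → ℤ, ∃ C : ℤ, 0 ≤ C ∧
      ∀ (γ : ℤ × (Fin N → ℤ)) (j : ℤ), 0 ≤ j →
      (∀ s, - (c s * j) ≤ cons T e E L κ p γ s) → γ.1 * ℓ g ≤ g.1 * ℓ γ + C * j := by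
  classical
  obtain ⟨g, hg, hmin⟩ := Finset.exists_min_image G (fun g => (ℓ g : ℚ) / g.1) hne
  have hpos : ∀ h ∈ G, (0 : ℚ) < h.1 := fun h hh => by
    exact_mod_cast (hG1 h hh).2.pos hE (hG1 h hh).1
  have hle : ∀ h ∈ G, h.1 * ℓ g ≤ g.1 * ℓ h := by
    intro h hh
    have h1 := hmin h hh
    rw [div_le_div_iff₀ (hpos g hg) (hpos h hh)] at h1
    have h2 : ((h.1 * ℓ g : ℤ) : ℚ) ≤ ((g.1 * ℓ h : ℤ) : ℚ) := by
      push_cast
      linarith
    exact_mod_cast h2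
  let ℓ' : (ℤ × (Fin N → ℤ)) →+ ℤ := AddMonoidHom.mk' (fun γ => g.1 * ℓ γ - γ.1 * ℓ g) (by
    intro x y
    simp only [map_add, Prod.fst_add]
    ring)
  have hℓ' : ∀ γ, ℓ' γ = g.1 * ℓ γ - γ.1 * ℓ g := fun γ => rfl
  have key : ∀ γ ∈ AddSubmonoid.closure (G : Set (ℤ × (Fin N → ℤ))), 0 ≤ ℓ' γ := by
    intro γ hγ
    induction hγ using AddSubmonoid.closure_induction with
    | mem h hh =>
      rw [hℓ']
      linarith [hle h hh]
    | zero => simp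
    | add x y _ _ hx hy =>
      rw [map_add]
      exact add_nonneg hx hy
  refine ⟨g, hg, fun c => ?_⟩
  obtain ⟨C, hC0, hC⟩ := perturb (cons T e E L κ p) cons_inj ℓ' (fun γ hγ => key γ (hG2 γ hγ)) c
  refine ⟨C, hC0, fun γ j hj hγ => ?_⟩
  have h1 := hC γ j hj hγ
  rw [hℓ'] at h1
  linarith

end lat

variable {d : ℕ} {Φ : Arr (d + 1)} {K : Type} [Field K] [Algebra ℂ K] {R : ℕ} (C : Cv Φ K R)
  {c : (Fin (d + 2) → ℕ) → ℚ} {δ : Place ℂ K → ℚ}

/-- a pluricanonical form in terms of its value on the dual vector fields -/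
theorem pluri_eq {D0 : Fin (d + 1) → Derivation ℂ K K}
    (hD0 : ∀ i j, D0 i (C.u j) = if i = j then 1 else 0) {m : ℕ}
    {ω : (Fin (d + 1) → Derivation ℂ K K) → K} (hω : IsPluri m ω)
    (D : Fin (d + 1) → Derivation ℂ K K) : ω D = bw D C.x ^ m * ω D0 := by
  have h1 : D = fun i => ∑ b, D i (C.u b) • D0 b := by
    funext i
    apply der_ext' C.u_bas
    intro j
    rw [sum_der, Finset.sum_eq_single j]
    · rw [hD0, if_pos rfl, mul_one]
    · intro b _ hb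
      rw [hD0, if_neg hb, mul_zero]
    · intro hj
      exact absurd (Finset.mem_univ _) hj
  have h2 : bw D C.x = (Matrix.of fun i j => D i (C.u j)).det :=
    Pool.Agent.W930.CG.bw_one D C.x C.hx0
  rw [h2]
  conv_lhs => rw [h1]
  exact hω (Matrix.of fun i b => D i (C.u b)) D0

/-- the section of a lattice point -/
noncomputable def sG (m : ℕ) (a : Fin (d + 2) → ℤ) (D : Fin (d + 1) → Derivation ℂ K K) : K :=
  bw D C.x ^ m * ∏ k, aeval C.x (Φ.F k) ^ ((Φ.ee k : ℤ) * a k - m)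

theorem prod_ne (m : ℕ) (a : Fin (d + 2) → ℤ) :
    ∏ k, aeval C.x (Φ.F k) ^ ((Φ.ee k : ℤ) * a k - m) ≠ 0 :=
  Finset.prod_ne_zero_iff.2 fun k _ => zpow_ne_zero _ (C.F_ne k)

theorem sG_sec (hcf : Coef C c δ) {m : ℕ} {a : Fin (d + 2) → ℤ}
    (hE : (Φ.E : ℤ) * ∑ k, a k = (∑ k, (Φ.dF k : ℤ) - (d + 2)) * m)
    (hadm : ∀ v, Pool.Agent.Y169.TH.Adm C.M C.a v →
      (m : ℚ) * (1 - c v) ≤ ((∑ k, (Φ.ee k : ℤ) * v k * a k : ℤ) : ℚ)) :
    BSec (d + 1) δ {1} m 1 (sG C m a) := by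
  classical
  refine ⟨?_, ?_⟩
  · intro A D
    unfold sG
    rw [(bwa (d + 1) K).2.1 A D C.x, mul_pow]
    ring
  · intro P _ D hD
    obtain ⟨α, v, hα, hdat⟩ := C.exists_dat P
    have h1 := bw_reg_ord Φ.hS Φ.hh hdat hD
    have hEord : P.ord (∏ k, aeval C.x (Φ.F k) ^ ((Φ.ee k : ℤ) * a k - m)) =
        ∑ k, ((Φ.ee k : ℤ) * a k - m) * (Φ.dF k * α + v k) := by
      rw [ord_prod' P Finset.univ _ fun k _ => zpow_ne_zero _ (C.F_ne k)]
      exact Finset.sum_congr rfl fun k _ => by rw [P.ord_zpow, hdat.hv]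
    have h2 := (h1.pow m).mul (ge_ord P (∏ k, aeval C.x (Φ.F k) ^ ((Φ.ee k : ℤ) * a k - m)))
    unfold sG
    rcases h2 with h2 | h2
    · exact Or.inl h2
    · right
      refine ⟨1, by simp, one_ne_zero, ?_⟩
      rw [P.ord_one, hcf.hδ P α v hdat]
      have h3 : ∑ k, ((Φ.ee k : ℤ) * a k - m) * (Φ.dF k * α + v k) =
          α * (Φ.E * ∑ k, a k) + ∑ k, (Φ.ee k : ℤ) * v k * a k -
          m * α * ∑ k, (Φ.dF k : ℤ) - m * ∑ k, (v k : ℤ) := by
        rw [Finset.mul_sum, Finset.mul_sum, Finset.mul_sum, Finset.mul_sum,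
          ← Finset.sum_add_distrib, ← Finset.sum_sub_distrib, ← Finset.sum_sub_distrib]
        refine Finset.sum_congr rfl fun k _ => ?_
        have h4 : (Φ.dF k : ℤ) * Φ.ee k = Φ.E := by exact_mod_cast Φ.d_ee k
        rw [← h4]
        ring
      rw [hEord, h3, hE] at h2
      have h4 : (m : ℚ) * ((if v = 0 then 0 else 1) - c v) ≤
          ((∑ k, (Φ.ee k : ℤ) * v k * a k : ℤ) : ℚ) := by
        by_cases hv : v = 0
        · rw [if_pos hv, hv, hcf.h0]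
          simp
        · rw [if_neg hv]
          exact hadm v (C.adm hdat hv)
      have h9 : (((if v = 0 then (0 : ℤ) else 1) : ℤ) : ℚ) = if v = 0 then 0 else 1 := by
        split_ifs <;> simp
      have h10 := (Int.cast_le (R := ℚ)).2 h2
      push_cast at h4 h9 h10 ⊢
      try rw [h9] at h10
      nlinarith

theorem ord_sG {P : Place ℂ K} {α : ℤ} {v : Fin (d + 2) → ℕ} (hdat : Dat P Φ.F Φ.dF C.x α v)
    {D : Fin (d + 1) → Derivation ℂ K K} (hD : bw D C.x ≠ 0) {m : ℕ} {a : Fin (d + 2) → ℤ}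
    (hE : (Φ.E : ℤ) * ∑ k, a k = (∑ k, (Φ.dF k : ℤ) - (d + 2)) * m) :
    P.ord (sG C m a D) = m * P.ord (bw D C.x) + α * ((∑ k, (Φ.dF k : ℤ) - (d + 2)) * m) +
      ∑ k, (Φ.ee k : ℤ) * v k * a k - m * ∑ k, ((Φ.dF k : ℤ) * α + v k) := by
  unfold sG
  rw [P.ord_mul (pow_ne_zero _ hD) (prod_ne C m a), P.ord_pow,
    ord_prod' P Finset.univ _ fun k _ => zpow_ne_zero _ (C.F_ne k), ← hE]
  have h1 : ∀ k, P.ord (aeval C.x (Φ.F k) ^ ((Φ.ee k : ℤ) * a k - m)) =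
      α * (Φ.E * a k) + (Φ.ee k : ℤ) * v k * a k - m * ((Φ.dF k : ℤ) * α + v k) := by
    intro k
    rw [P.ord_zpow, hdat.hv]
    have h4 : (Φ.dF k : ℤ) * Φ.ee k = Φ.E := by exact_mod_cast Φ.d_ee k
    rw [← h4]
    ring
  rw [Finset.sum_congr rfl fun k _ => h1 k, Finset.sum_sub_distrib, Finset.sum_add_distrib,
    ← Finset.mul_sum, ← Finset.mul_sum, ← Finset.mul_sum]
  ring

end Pool.Agent.Q57.GM
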